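import Pool.Agent.Lib_helper11.ICF.Main

/-!
# MP_ef641d_nt: closed integral families on `GL_2` look icosahedral

`Family K N v`: the numbers `v p = a(p)² / χ(p) - 2` (`p ∤ N`) are integers of the number field `K`, and
for every embedding `τ : K → ℂ` the numbers `τ (v p)` come from a cuspidal Hecke eigenform on `GL_2`
whose adjoint lift to `GL_3` and twisted fourth symmetric power lift to `GL_5` are cuspidal Hecke
eigenforms, the latter with a common type and a common normalisation.

The numbers `v p` generate `K` (`hv`). Then `K = ℚ(√5)`, every `v p` is a rational integer or a root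
of `x² + x = 1`. If moreover (`FamilyS`) the third symmetric power is cuspidal on `GL_4` and the
Whittaker functions are square integrable a little beyond the edge, then, up to a set of primes with
`∑ p^{-s} < ∞` for some `s < 1`, the `v p` are the traces `2, -2, -1, (-1 ± √5) / 2` of the conjugacy
classes of `A_5`, with the densities of Chebotarev's theorem for an icosahedral representation. Finally
(`Family2`), if the eigenforms on `GL_2` with the eigenvalues `a p`, integers of a number field `L` over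
`K`, and with the nebentypus `χ`, `χ ^ m = 1`, have a common type and a common normalisation too, then
all `a p` lie in the field `ℚ(√5, ζ_{2m})`.
-/

set_option autoImplicit false

namespace Pool.Agent.Results.MP_ef641d_nt.IcosahedralFamilies

open NumberField Pool.Agent.ICF

theorem result (K L : Type) [Field K] [NumberField K] [Field L] [NumberField L] [Algebra K L]
    (N : ℕ) (hN : 2 ≤ N) (v : ℕ → 𝓞 K)
    (hv : IntermediateField.adjoin ℚ {y : K | ∃ p : ℕ, p.Prime ∧ ¬ p ∣ N ∧ y = v p} = ⊤)
    (h : Family K N v) :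
    Module.finrank ℚ K = 2 ∧ (∃ w : K, w ^ 2 = 5) ∧
    (∀ p : ℕ, p.Prime → ¬ p ∣ N → (∃ b : ℤ, v p = b) ∨ v p ^ 2 + v p = 1) ∧
    (FamilyS K N v →
      Sparse {p | ¬ p ∣ N ∧ ¬ (v p = 2 ∨ v p = -2 ∨ v p = -1 ∨ v p ^ 2 + v p = 1)} ∧
      Dens {p | ¬ p ∣ N ∧ v p = 2} (1 / 60) ∧ Dens {p | ¬ p ∣ N ∧ v p = -2} (1 / 4) ∧
      Dens {p | ¬ p ∣ N ∧ v p = -1} (1 / 3) ∧
      (∀ g : 𝓞 K, g ^ 2 + g = 1 → Dens {p | ¬ p ∣ N ∧ v p = g} (1 / 5)) ∧
      ∀ (m : ℕ) (χ : DirichletCharacter L N) (a : ℕ → 𝓞 L), Family2 K L N v m χ a →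
        ∀ p : ℕ, p.Prime → ¬ p ∣ N →
          (a p : L) ∈ IntermediateField.adjoin ℚ {x : L | x ^ 2 = 5 ∨ x ^ (2 * m) = 1}) :=
  main K L N hN v hv h

end Pool.Agent.Results.MP_ef641d_nt.IcosahedralFamilies
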