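import Pool.Agent.Lib_helper46.SC.Final

/-!
# MP_ef641d_nt: integral Satake polynomials, closed under conjugation prime by prime

(I) Let finitely many cuspidal Hecke eigenforms on `GL_n`, `n ≥ 2`, be given whose Satake polynomials at
each prime `p` (outside an arbitrary set `E`) have algebraic integral coefficients and are permuted by the
automorphisms of `ℂ`; the permutation may depend on `p`, so no form is assumed to be a conjugate of another
one. Then at many primes (`∑ p^(-s)` diverges for `s < 1 / (n + 1)`) the trace of one of them vanishes, or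
`p ∈ E`. This is the automorphic form of Burnside's theorem on the zeros of irreducible characters.

(II) If moreover `n = 5` and the forms have the Satake parameters `1, z, z⁻¹, z², z⁻²` of (twisted)
fourth symmetric powers, `v = z + z⁻¹`, the trace is `v² + v - 1`, which is odd for integral `v` and
vanishes only for `v = (-1 ± √5) / 2`. So there is no such form with `v p ∈ ℤ` for all `p`; (III) for
`v p` in the ring of integers of a number field `K` and all conjugates, `√5 ∈ K`.

(IV), (V) For the tensor product `π₁ ⊠ π₂` on `GL_4` of two representations of `GL_2` with the Satake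
parameters `a, b` and `c, d`, and for the third symmetric power of one, with Satake polynomials in `ℤ[X]`
the two numbers `v₁, v₂` (resp. the number `v`) are roots of an integral polynomial at each prime, and
`v_i = (-1 ± √5) / 2` only if the Satake polynomial on `GL_4` is `Φ₅(X)` or `Φ₅(-X)`. So if this happens
at few primes, one of the fourth symmetric powers is not cuspidal (Kim, Shahidi: `π_i` is of solvable
polyhedral type).

The proof of (I): the quotient of the product of the Rankin-Selberg `L`-functions of the forms and a power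
of the zeta function would otherwise be a Dirichlet series with nonnegative coefficients which is
holomorphic near the real axis to the right of `0`, and diverges at `1 / (n + 1)`. The lower bound of its
coefficients uses the inequality between arithmetic and geometric means, Kronecker's theorem and Newton's
identities for each form separately.
-/

set_option autoImplicit false

namespace Pool.Agent.Results.MP_ef641d_nt.IntegralFamilies

open Polynomial NumberField Pool.Agent.SC
open Pool.Agent.ICO5 (P5)

theorem result :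
    (∀ (n N : ℕ) (ι : Type) [Fintype ι] [Nonempty ι] (E : Set ℕ) (P : ι → ℕ → ℂ[X]),
      2 ≤ n → 0 < N → (∀ i, IsCuspidal n N (P i)) →
      (∀ p : ℕ, p.Prime → ¬ p ∣ N → p ∉ E → ClosedFamily n fun i => P i p) →
      Diverges (1 / ((n : ℝ) + 1)) {p | ¬ p ∣ N ∧ (p ∈ E ∨ ∃ i, (P i p).coeff (n - 1) = 0)}) ∧
    (∀ (N : ℕ) (ι : Type) [Fintype ι] [Nonempty ι] (E : Set ℕ) (v : ι → ℕ → ℂ),
      0 < N → (∀ i, IsCuspidal 5 N fun p => P5 (v i p)) →
      (∀ p : ℕ, p.Prime → ¬ p ∣ N → p ∉ E → OverZ (∏ i, (X - C (v i p)))) →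
      Diverges (1 / 6) {p | ¬ p ∣ N ∧ (p ∈ E ∨ ∃ i, v i p ^ 2 + v i p = 1)}) ∧
    (∀ (K : Type) [Field K] [NumberField K] (N : ℕ) (v : ℕ → 𝓞 K), 0 < N →
      (∀ t : K →+* ℂ, IsCuspidal 5 N fun p => P5 (t (v p))) →
      Diverges (1 / 6) {p | ¬ p ∣ N ∧ v p ^ 2 + v p = 1} ∧ ∃ w : K, w ^ 2 = 5) ∧
    (∀ (N : ℕ) (E : Set ℕ) (a b c d : ℕ → ℂ), 0 < N →
      (IsCuspidal 5 N fun p => P5 (a p / b p + b p / a p)) →
      (IsCuspidal 5 N fun p => P5 (c p / d p + d p / c p)) →
      (∀ p : ℕ, p.Prime → ¬ p ∣ N → p ∉ E →
        (a p * b p * (c p * d p) = 1 ∨ a p * b p * (c p * d p) = -1) ∧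
        OverZ (quart (a p * c p) (a p * d p) (b p * c p) (b p * d p))) →
      Diverges (1 / 6) {p | ¬ p ∣ N ∧ (p ∈ E ∨
        IsPhi5 (quart (a p * c p) (a p * d p) (b p * c p) (b p * d p)))}) ∧
    (∀ (N : ℕ) (E : Set ℕ) (a b c : ℕ → ℂ), 0 < N →
      (IsCuspidal 5 N fun p => P5 (a p / b p + b p / a p)) →
      (∀ p : ℕ, p.Prime → ¬ p ∣ N → p ∉ E → (c p ^ 2 * (a p * b p) ^ 3 = 1 ∨ c p ^ 2 * (a p * b p) ^ 3 = -1) ∧
        OverZ (quart (c p * a p ^ 3) (c p * (a p ^ 2 * b p)) (c p * (a p * b p ^ 2)) (c p * b p ^ 3))) →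
      Diverges (1 / 6) {p | ¬ p ∣ N ∧ (p ∈ E ∨
        IsPhi5 (quart (c p * a p ^ 3) (c p * (a p ^ 2 * b p)) (c p * (a p * b p ^ 2)) (c p * b p ^ 3)))}) :=
  final

end Pool.Agent.Results.MP_ef641d_nt.IntegralFamilies
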