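import Pool.Agent.Lib_helper54.OR.PSMain

/-!
# MP_ef641d_nt: one Galois representation modulo one large prime gives all the others

Let `π^τ`, `τ : K → ℂ`, be cuspidal automorphic representations of `GL_n` over `ℚ`, `n ≥ 2`, with
the Satake polynomials `τ (P p)`, `P p ∈ O_K[X]`, at the primes `p` not dividing the level `N`
(representations of Artin type in Clozel's normalisation: the conjugates of a `π` whose Galois
representation should have finite image; they are never regular). One of every two complex conjugate
embeddings suffices, so for `K = ℚ` and for `K` imaginary quadratic this is a theorem on one `π`.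
Let `j : O_K → k` be the reduction modulo ONE prime ideal of norm larger than `(2 n d)^(8 d n^2)`,
`d = [K : ℚ]` (the bound does not depend on the level `N`), and `S` a set of primes of small density.

(A) `π` is not congruent to an Eisenstein series modulo this prime: `P p` is not the product of the
`X - χ_i p`, for Dirichlet characters `χ_1, ..., χ_n`, at all `p` outside `S`.

(B) Let `r` be a representation of `G_ℚ` over `k`, with open kernel, that corresponds to `P p` modulo
this prime, at all `p` outside `S`. Then `r` is absolutely irreducible and its traces are the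
reductions of a function `a : G_ℚ → O_K`. Over EVERY algebraically closed field `Ω`, for every
homomorphism `i : O_K → Ω`, there is a representation `R` of `G_ℚ`, with open kernel and finite image
and with the traces `i (a g)`, that corresponds to `i (P p)`: at every `p` outside `S` at which `π` is
tempered, and at every `p` outside a set `T`, which is as thin as `S` and does not depend on `Ω` and
`i`, up to semisimplification (the trace), or exactly if `n ≤ 3`. In characteristic zero `R` is
irreducible and has the kernel of `r`. For `Ω = ℂ` this is the representation predicted by Langlands,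
for `Ω = Q_ℓ^bar`, for every prime `ℓ`, the one predicted by Clozel; for `Ω = F_ℓ^bar` it is the
converse: there are representations modulo all primes.

(C) It suffices that `r` exists POTENTIALLY. Let `M` be a finite Galois extension of `ℚ`, of degree
`c`, ramified only in `N` and `S`, the norm of the prime larger than `(2 n c d)^(8 d n^2)`. If for
every elementary subgroup `E` of `Gal(M/ℚ)` there is a representation over `k` of the Galois group of
the fixed field `M^E`, which corresponds to `P p` at the places of degree one, then there is an `r` as in
(B). (Nothing is assumed on the relation of the representations of different `E`.)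

Deligne and Serre (1974, `n = 2`, forms of weight one) need such `r` modulo infinitely many primes.
-/

set_option autoImplicit false

namespace Pool.Agent.Results.MP_ef641d_nt.OneResidual

open Polynomial NumberField Pool.Agent.OneRS

theorem result {n N : ℕ} (hn : 2 ≤ n) (hN : N ≠ 0) (K : Type) [Field K] [NumberField K]
    (P : ℕ → (𝓞 K)[X])
    (hP : ∀ τ : K →+* ℂ, ∃ σ : K →+* ℂ, (σ = τ ∨ ∀ x, σ x = starRingEnd ℂ (τ x)) ∧
      ∃ χ h f, CuspEigenform n N χ h f fun p => (P p).map (σ.comp (algebraMap (𝓞 K) K)))
    {k : Type} [Field k] (j : 𝓞 K →+* k)
    (hj : (2 * n * Module.finrank ℚ K) ^ (8 * Module.finrank ℚ K * n ^ 2) <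
      Ideal.absNorm (RingHom.ker j))
    (S : Set ℕ)
    (hS : ∃ C : ℝ, ∀ s : ℝ, 1 < s → s ≤ 2 →
      primeSum S s ≤ Real.log (1 / (s - 1)) / (2 * n ^ 4) + C) :
    (∀ (M : ℕ) (x : Fin n → DirichletCharacter k M), M ≠ 0 →
      ¬ ∀ p : ℕ, p.Prime → ¬ p ∣ N → ¬ p ∣ M → p ∉ S → (P p).map j = ∏ i, (X - C (x i p))) ∧
    (∀ r : (AlgebraicClosure ℚ ≃ₐ[ℚ] AlgebraicClosure ℚ) →* Matrix (Fin n) (Fin n) k,
      Residual N P S j r → HasLifts N P S j r) ∧
    ∀ (M : IntermediateField ℚ (AlgebraicClosure ℚ)) [FiniteDimensional ℚ M] [Normal ℚ M],
      (2 * n * (Module.finrank ℚ M * Module.finrank ℚ K)) ^ (8 * Module.finrank ℚ K * n ^ 2) <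
        Ideal.absNorm (RingHom.ker j) →
      (∃ C : ℝ, ∀ s : ℝ, 1 < s → s ≤ 2 →
        primeSum S s ≤ Real.log (1 / (s - 1)) / (2 * n ^ 4 * Module.finrank ℚ M) + C) →
      (∀ p : ℕ, p.Prime → ¬ p ∣ N → p ∉ S → Unramified M p) → Potential n N P S j M →
      ∃ r : (AlgebraicClosure ℚ ≃ₐ[ℚ] AlgebraicClosure ℚ) →*
          Matrix (Fin n) (Fin n) (AlgebraicClosure k),
        Residual N P S ((algebraMap k (AlgebraicClosure k)).comp j) r ∧
        HasLifts N P S ((algebraMap k (AlgebraicClosure k)).comp j) r :=
  main_potential hn hN K P hP j hj S hS

end Pool.Agent.Results.MP_ef641d_nt.OneResidual
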