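import Pool.Agent.Lib_helper7.BRL.Final

/-!
# MP_ef641d_nt: Q1 for one prime, Q1 for all primes and places, and potential Q1

Let `π^τ`, `τ : K → ℂ`, be the conjugates of a cuspidal automorphic representation of `GL_n` over `ℚ`,
`n ≥ 2`, with the Satake polynomials `P p ∈ O_K[X]` at the primes `p` not dividing the level
`N` (representations of Artin type in Clozel's normalisation: they are algebraic, never regular, and
their Galois representation should have finite image). It is not assumed that `π` is tempered. If
`K = ℚ` or `K` is imaginary quadratic, this is a hypothesis on one representation `π`.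

The following are equivalent: the statement Q1 for `π` and ONE prime `ℓ`; Q1 for ALL primes `ℓ`, at ALL
places `p` not dividing `N` (also at `p = ℓ`); there are such representations over ALL algebraically
closed fields of all characteristics, with finite image and with the traces of one function
`a : G_ℚ → O_K` (`FullSystem` for the empty set); potential Q1: for some finite Galois extension `M` of
`ℚ`, every elementary subgroup `E` of `Gal(M/ℚ)` has a representation of the Galois group of the fixed
field `M^E` over SOME field of characteristic zero (which may depend on `E`, no relation between these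
representations is assumed) which corresponds to `P p` at the places of degree one outside a finite set.

Further parts:

(A) For every sparse set `E` of primes (finite, or empty, or of small density) the following are
equivalent: over SOME field of characteristic zero with a Hausdorff ring topology there is a
continuous semisimple representation attached to `P p` at all `p` outside `E`; for ALL primes `ℓ`
there is one over `Q_ℓ^bar`; there are such representations modulo infinitely many primes of `O_K`;
`FullSystem` for `E`.

(B) From almost all places to all places: `FullSystem` for a finite set implies `FullSystem` for the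
empty set.

(C) If `FullSystem` holds for `E` and for `F`, then it holds for the intersection of `E` and `F`.

(D) Potential Q1 with an exceptional set `S` of density zero which contains the primes ramified in `M`
is equivalent to `FullSystem` for `S`; representations modulo ONE prime `ℓ` such that `[K(μ_ℓ) : K] > n`
suffice, outside the primes at which `π` is not tempered, if their density is less than `1 / (2 n^2)`.

(E) The variant of (D) for ONE eigenform with arbitrary complex Satake polynomials (here no family of
conjugates is given): if the restriction to every elementary subgroup of `Gal(M/ℚ)` has a complex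
representation with open kernel attached to the form, then there is an irreducible Artin
representation attached to it outside `S`.
-/

set_option autoImplicit false

namespace Pool.Agent.Results.MP_ef641d_nt.PotentialQ1

open Polynomial NumberField Pool.Agent.AES Pool.Agent.BRL

theorem result {n N : ℕ} (hn : 2 ≤ n) (hN : N ≠ 0) :
    (∀ (K : Type) [Field K] [NumberField K] (P : ℕ → (𝓞 K)[X]), AllConjugates n N P →
      [∃ (ℓ : ℕ) (_ : Fact ℓ.Prime), Q1At n N (AlgebraicClosure ℚ) P ℓ,
        EveryEll n N (AlgebraicClosure ℚ) P ∅,
        FullSystem n N (AlgebraicClosure ℚ) P ∅,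
        ∃ (M : IntermediateField ℚ (AlgebraicClosure ℚ)) (_ : FiniteDimensional ℚ M)
          (_ : Normal ℚ M) (S : Set ℕ), S.Finite ∧ Potential n N P S M].TFAE ∧
      (∀ E : Set ℕ, Sparse n E →
        [SomeField n N (AlgebraicClosure ℚ) P E, EveryEll n N (AlgebraicClosure ℚ) P E,
          ManyResidual n N (AlgebraicClosure ℚ) P E,
          FullSystem n N (AlgebraicClosure ℚ) P E].TFAE) ∧
      (∀ E : Set ℕ, E.Finite → FullSystem n N (AlgebraicClosure ℚ) P E →
        FullSystem n N (AlgebraicClosure ℚ) P ∅) ∧
      (∀ E F : Set ℕ, Sparse n E → Sparse n F → FullSystem n N (AlgebraicClosure ℚ) P E →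
        FullSystem n N (AlgebraicClosure ℚ) P F →
          FullSystem n N (AlgebraicClosure ℚ) P (E ∩ F)) ∧
      ∀ (M : IntermediateField ℚ (AlgebraicClosure ℚ)) [FiniteDimensional ℚ M] [Normal ℚ M]
        (S : Set ℕ), UpperLE S 0 → RamifiedIn M N S →
          (Potential n N P S M ↔ FullSystem n N (AlgebraicClosure ℚ) P S) ∧
          (∀ β : ℝ, 2 * (n : ℝ) ^ 2 * β < 1 → UpperLE (NonTempered N P) β →
            ∀ (ℓ : ℕ) [Fact ℓ.Prime], n < Module.finrank K (CyclotomicField ℓ K) →
            ∀ (k : Type) [Field k] [CharP k ℓ] (j : 𝓞 K →+* k),
              PotentialOver n N (fun p => (P p).map j) S M →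
                FullSystem n N (AlgebraicClosure ℚ) P (S ∪ NonTempered N P))) ∧
    ∀ (M : IntermediateField ℚ (AlgebraicClosure ℚ)) [FiniteDimensional ℚ M] [Normal ℚ M]
      (S : Set ℕ), UpperLE S 0 → RamifiedIn M N S →
        ∀ (χ : DirichletCharacter ℂ N) (φ : Matrix (Fin n) (Fin n) ℝ → ℂ) (Q : ℕ → ℂ[X]),
          Eigenform n N χ φ Q → PotentialOver n N Q S M →
            ∃ R : (AlgebraicClosure ℚ ≃ₐ[ℚ] AlgebraicClosure ℚ) →* Matrix (Fin n) (Fin n) ℂ,
              IsOpen {g | R g = 1} ∧ Irreducible R ∧
              ∀ p : ℕ, p.Prime → ¬ p ∣ N → p ∉ S → AttachedAt R p (Q p) := by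
  refine ⟨fun K _ _ P hP => ?_, fun M _ _ S hS hM χ φ Q hφ h => stmtE hn hN hφ M S hS hM h⟩
  obtain ⟨h1, h2, h3, h4, h5⟩ := Pool.Agent.BRL.main hn hN K P hP
  exact ⟨h1, h2, h3, h4, fun M _ _ S hS hM => ⟨(h5 M S hS hM).1, (h5 M S hS hM).2.1⟩⟩

end Pool.Agent.Results.MP_ef641d_nt.PotentialQ1
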